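import Pool.Agent.Lib.MP_5f3550_nt.SqE3c

set_option autoImplicit false

namespace Pool.Agent.Results.MP_5f3550_nt.LocalExceptions

open MeasureTheory

/-- There is `C > 0` such that for all `X ≥ C`, `X^(-1/50) ≤ c ≤ 1` and `X^(1/4) ≤ H ≤ X` the set
of real `Y` in `[X, X + H]` for which `[Y - c Y^(1/4), Y]` contains no sum of two squares has
measure at most `(C / c^4) (H^(2/3) X^(1/12) + H X^(-1/16))`. -/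
theorem result : ∃ C : ℝ, 0 < C ∧ ∀ X c H : ℝ, C ≤ X → X ^ (-(1 / 50) : ℝ) ≤ c → c ≤ 1 →
    X ^ (1 / 4 : ℝ) ≤ H → H ≤ X →
    volume {Y : ℝ | X ≤ Y ∧ Y ≤ X + H ∧ ∀ a b : ℕ,
      ¬ (Y - c * Y ^ (1 / 4 : ℝ) ≤ (a : ℝ) ^ 2 + (b : ℝ) ^ 2 ∧ (a : ℝ) ^ 2 + (b : ℝ) ^ 2 ≤ Y)}
      ≤ ENNReal.ofReal (C / c ^ 4 *
        (H ^ (2 / 3 : ℝ) * X ^ (1 / 12 : ℝ) + H * X ^ (-(1 / 16) : ℝ))) := by
  obtain ⟨K, hK, h⟩ := MP5f3550.exc_all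
  exact ⟨K, by linarith, fun X c H hX hc0 hc1 hH0 hH1 => h X c H hX hc0 hc1 hH0 hH1⟩

end Pool.Agent.Results.MP_5f3550_nt.LocalExceptions
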