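import Mathlib

set_option autoImplicit false

open Finset

namespace Pool.Agent.Results.MP_5f3550_nt.TopSquares

/-- Simultaneous Dirichlet approximation with individual box sizes. -/
lemma dirichlet {n : ℕ} (β : Fin n → ℝ) (K : Fin n → ℕ) (hK : ∀ i, 0 < K i) :
    ∃ k : ℕ, 0 < k ∧ k ≤ ∏ i, K i ∧ ∀ i, ∃ M : ℤ, |β i * k - M| ≤ 1 / (K i : ℝ) := by
  classical
  let f : Fin (∏ i, K i + 1) → (i : Fin n) → Fin (K i) := fun k i =>
    ⟨⌊(K i : ℝ) * Int.fract (β i * (k : ℕ))⌋₊, by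
      have h1 : Int.fract (β i * (k : ℕ)) < 1 := Int.fract_lt_one _
      have h0 : 0 ≤ Int.fract (β i * (k : ℕ)) := Int.fract_nonneg _
      have hKi : (0 : ℝ) < K i := by exact_mod_cast hK i
      rw [Nat.floor_lt (by positivity)]
      nlinarith⟩
  obtain ⟨k1, k2, hne, heq⟩ := Fintype.exists_ne_map_eq_of_card_lt f (by
    simp [Fintype.card_pi])
  wlog hlt : k1 < k2 generalizing k1 k2
  · exact this k2 k1 hne.symm heq.symm (lt_of_le_of_ne (not_lt.mp hlt) hne.symm)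
  refine ⟨(k2 : ℕ) - (k1 : ℕ), by omega, by omega, fun i => ?_⟩
  refine ⟨⌊β i * (k2 : ℕ)⌋ - ⌊β i * (k1 : ℕ)⌋, ?_⟩
  have hKi : (0 : ℝ) < K i := by exact_mod_cast hK i
  have hv : ⌊(K i : ℝ) * Int.fract (β i * (k1 : ℕ))⌋₊ = ⌊(K i : ℝ) * Int.fract (β i * (k2 : ℕ))⌋₊ := by
    have := congrFun heq i
    exact congrArg Fin.val this
  set x1 := Int.fract (β i * (k1 : ℕ)) with hx1
  set x2 := Int.fract (β i * (k2 : ℕ)) with hx2
  have a0 : 0 ≤ (K i : ℝ) * x1 := mul_nonneg hKi.le (Int.fract_nonneg _)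
  have b0 : 0 ≤ (K i : ℝ) * x2 := mul_nonneg hKi.le (Int.fract_nonneg _)
  have a1 := Nat.floor_le a0
  have a2 := Nat.lt_floor_add_one ((K i : ℝ) * x1)
  have b1 := Nat.floor_le b0
  have b2 := Nat.lt_floor_add_one ((K i : ℝ) * x2)
  rw [hv] at a1 a2
  have e : β i * (((k2 : ℕ) - (k1 : ℕ) : ℕ) : ℝ) - ((⌊β i * (k2 : ℕ)⌋ - ⌊β i * (k1 : ℕ)⌋ : ℤ) : ℝ) = x2 - x1 := by
    rw [Nat.cast_sub (by omega)]
    push_cast
    rw [hx1, hx2, Int.fract, Int.fract]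
    ring
  rw [e, le_div_iff₀ hKi]
  have e2 : |x2 - x1| * (K i : ℝ) = |(x2 - x1) * (K i : ℝ)| := by rw [abs_mul, abs_of_pos hKi]
  rw [e2, abs_le]
  constructor <;> nlinarith

/-- `∏ K i` is only exponentially large in the number of boxes. -/
lemma prod_bound (n : ℕ) (C : ℝ) (hC : 0 ≤ C) (K : Fin n → ℕ)
    (h : ∀ i : Fin n, (K i : ℝ) ≤ C * Real.sqrt ((n : ℝ) / ((i : ℕ) + 1))) :
    ((∏ i, K i : ℕ) : ℝ) ≤ (C * Real.exp 1) ^ n := by
  have h1 : ∀ i : Fin n, (K i : ℝ) ≤ C * ((n : ℝ) / ((i : ℕ) + 1)) := by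
    intro i
    refine (h i).trans (mul_le_mul_of_nonneg_left ?_ hC)
    have h2 : (1 : ℝ) ≤ (n : ℝ) / ((i : ℕ) + 1) := by
      rw [le_div_iff₀ (by positivity), one_mul]
      exact_mod_cast i.2
    rw [Real.sqrt_le_left (by linarith)]
    nlinarith
  push_cast
  calc ∏ i, (K i : ℝ) ≤ ∏ i : Fin n, C * ((n : ℝ) / ((i : ℕ) + 1)) :=
        prod_le_prod (fun i _ => by positivity) (fun i _ => h1 i)
    _ = C ^ n * ((n : ℝ) ^ n / (n.factorial : ℝ)) := by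
        rw [prod_mul_distrib, prod_div_distrib, prod_const, prod_const]
        simp only [card_univ, Fintype.card_fin]
        congr 2
        have := Fin.prod_univ_eq_prod_range (fun i : ℕ => (i : ℝ) + 1) n
        rw [this]
        have h3 := Finset.prod_range_add_one_eq_factorial n
        rw [← h3]
        push_cast
        rfl
    _ ≤ C ^ n * Real.exp n := by
        refine mul_le_mul_of_nonneg_left ?_ (by positivity)
        exact Real.pow_div_factorial_le_exp (n : ℝ) (by positivity) n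
    _ = (C * Real.exp 1) ^ n := by
        rw [mul_pow, ← Real.exp_nat_mul, mul_one]

/-- Approximation data for one column. `a = sqrt (2 (θ + j))`. -/
lemma column {θ a s lam w c d A M Jr jr : ℝ} {b : ℤ} {m : ℤ}
    (hM : M = m)
    (hθ0 : 0 < θ) (hθ1 : θ < 1)
    (hj0 : 0 ≤ jr) (hjJ : jr ≤ Jr)
    (ha : a ^ 2 = 2 * (θ + jr)) (ha0 : 0 < a) (hwa : w ≤ a) (hw0 : 0 < w) (hw1 : w ≤ 3 / 2)
    (hlam0 : 0 < lam) (hlam1 : lam ≤ 1 / 4) (hc : c = 2 * w * (1 - 4 * lam)) (hc0 : 0 < c)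
    (hd0 : 0 < d) (had : a * d ≤ lam)
    (hs : 2 * (Jr + 3) ≤ s * d) (hs2 : 7 ≤ 4 * lam * w * s) (hs0 : 0 < s)
    (hA1 : A ≤ s ^ 2) (hA2 : s ^ 2 < A + 1) (hAJ : Jr ≤ A)
    (hMs : |a * (s + d) - M| ≤ a * d / 4)
    (hb : (b : ℝ) ^ 2 ≤ (θ + jr) * (2 * A + θ - jr)) :
    c * Real.sqrt (A + θ) < (θ + jr) * (2 * A + θ - jr) - (b : ℝ) ^ 2 := by
  set z2 := (θ + jr) * (2 * A + θ - jr) with hz2
  have hz20 : 0 ≤ z2 := mul_nonneg (by linarith) (by linarith)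
  set Z := Real.sqrt z2 with hZ
  have hZ0 : 0 ≤ Z := Real.sqrt_nonneg _
  have hZ2 : Z ^ 2 = z2 := Real.sq_sqrt hz20
  have had0 : 0 < a * d := mul_pos ha0 hd0
  have has : 0 < a * s := mul_pos ha0 hs0
  -- |Z - a s| ≤ a d / 4
  have hdiff : |Z - a * s| ≤ a * d / 4 := by
    have h1 : Z ^ 2 - (a * s) ^ 2 = a ^ 2 / 2 * (2 * A - 2 * s ^ 2 + θ - jr) := by
      rw [hZ2, hz2, mul_pow, ha]; ring
    have h2 : |2 * A - 2 * s ^ 2 + θ - jr| ≤ Jr + 3 := by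
      rw [abs_le]; constructor <;> linarith
    have h3 : |Z - a * s| * (Z + a * s) = a ^ 2 / 2 * |2 * A - 2 * s ^ 2 + θ - jr| := by
      have h4 : |Z - a * s| * (Z + a * s) = |Z ^ 2 - (a * s) ^ 2| := by
        have h40 : Z ^ 2 - (a * s) ^ 2 = (Z - a * s) * (Z + a * s) := by ring
        rw [h40, abs_mul, abs_of_pos (show 0 < Z + a * s by linarith)]
      rw [h4, h1, abs_mul, abs_of_pos (show 0 < a ^ 2 / 2 by positivity)]
    have h5 : |Z - a * s| * (a * s) ≤ a ^ 2 / 2 * (Jr + 3) := by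
      have h6 : |Z - a * s| * (a * s) ≤ |Z - a * s| * (Z + a * s) :=
        mul_le_mul_of_nonneg_left (by linarith) (abs_nonneg _)
      have h7 : a ^ 2 / 2 * |2 * A - 2 * s ^ 2 + θ - jr| ≤ a ^ 2 / 2 * (Jr + 3) :=
        mul_le_mul_of_nonneg_left h2 (by positivity)
      linarith
    have h8 : a ^ 2 / 2 * (Jr + 3) ≤ a * d / 4 * (a * s) := by
      nlinarith [mul_le_mul_of_nonneg_left hs (show 0 ≤ a ^ 2 / 4 by positivity)]
    exact le_of_mul_le_mul_right (h5.trans h8) has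
  rw [abs_le] at hdiff hMs
  have had1 : a * (s + d) = a * s + a * d := by ring
  have hZup : Z < M := by linarith
  have hZlo : M - 3 / 2 * lam ≤ Z := by linarith
  -- b
  have hbabs : |(b : ℝ)| ≤ Z := by
    rw [← Real.sqrt_sq_eq_abs]
    exact Real.sqrt_le_sqrt hb
  have hbm : |b| ≤ m - 1 := by
    have : ((|b| : ℤ) : ℝ) < (m : ℝ) := by
      push_cast
      rw [← hM]; linarith
    have : |b| < m := by exact_mod_cast this
    omega
  have hbm' : |(b : ℝ)| ≤ M - 1 := by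
    rw [hM]
    exact_mod_cast hbm
  have hbsq : (b : ℝ) ^ 2 ≤ (M - 1) ^ 2 := by
    rw [← sq_abs (b : ℝ)]
    exact pow_le_pow_left₀ (abs_nonneg _) hbm' 2
  have hws0 : 0 < w * s := mul_pos hw0 hs0
  have hws : 7 ≤ w * s := by
    have h20 : 4 * lam * (w * s) ≤ 1 * (w * s) := mul_le_mul_of_nonneg_right (by linarith) hws0.le
    linarith [mul_assoc (4 * lam) w s]
  have hwas : w * s ≤ a * s := mul_le_mul_of_nonneg_right hwa hs0.le
  have hZs : w * s - 1 / 16 ≤ Z := by linarith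
  have hY : Real.sqrt (A + θ) ≤ s + 1 := by
    rw [Real.sqrt_le_left (by linarith)]
    nlinarith
  have h10 : (1 - 3 / 2 * lam) * (2 * (w * s) - 9 / 8) ≤ z2 - (b : ℝ) ^ 2 := by
    have h11 : (Z - M + 1) * (Z + M - 1) = z2 - (M - 1) ^ 2 := by rw [← hZ2]; ring
    have h12 : (1 - 3 / 2 * lam) * (2 * (w * s) - 9 / 8) ≤ (Z - M + 1) * (Z + M - 1) := by
      apply mul_le_mul
      · linarith
      · linarith
      · linarith
      · linarith
    linarith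
  have h13 : c * Real.sqrt (A + θ) ≤ c * (s + 1) := mul_le_mul_of_nonneg_left hY hc0.le
  have h14 : c * (s + 1) < (1 - 3 / 2 * lam) * (2 * (w * s) - 9 / 8) := by
    rw [hc]
    have h30 : 2 * w * (1 - 4 * lam) * (s + 1) = 2 * (w * s) - 2 * (4 * lam * w * s) + 2 * w - 8 * (lam * w) := by ring
    have h31 : (1 - 3 / 2 * lam) * (2 * (w * s) - 9 / 8)
        = 2 * (w * s) - 9 / 8 - 3 / 4 * (4 * lam * w * s) + 27 / 16 * lam := by ring
    have h32 : 0 < lam * w := mul_pos hlam0 hw0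
    rw [h30, h31]
    linarith
  linarith

/-- For each `J` there is a good integer part `A`, of size at most exponential in `J`. -/
lemma core {θ c : ℝ} (hθ0 : 0 < θ) (hθ1 : θ < 1) (hc0 : 0 < c) (hc : c < 2 * Real.sqrt (2 * θ)) :
    ∃ C : ℝ, 0 < C ∧ ∀ J : ℕ, 1 ≤ J → ∃ A : ℕ, J ≤ A ∧
      Real.log (((A : ℝ) + θ) ^ 2) ≤ C * J ∧
      ∀ j : ℕ, j ≤ J → ∀ b : ℤ, (b : ℝ) ^ 2 ≤ (θ + j) * (2 * A + θ - j) →
        c * Real.sqrt (A + θ) < (θ + j) * (2 * A + θ - j) - (b : ℝ) ^ 2 := by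
  set w := Real.sqrt (2 * θ) with hw
  have hw0 : 0 < w := Real.sqrt_pos.mpr (by linarith)
  have hw2 : w ^ 2 = 2 * θ := Real.sq_sqrt (by linarith)
  have hw1 : w ≤ 3 / 2 := by nlinarith
  obtain ⟨lam, hlam⟩ : ∃ lam : ℝ, lam = (1 - c / (2 * w)) / 4 := ⟨_, rfl⟩
  have hcw : c / (2 * w) < 1 := by rw [div_lt_one (by positivity)]; exact hc
  have hcw0 : 0 < c / (2 * w) := by positivity
  have hlam0 : 0 < lam := by rw [hlam]; linarith
  have hlam1 : lam ≤ 1 / 4 := by rw [hlam]; linarith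
  have hcl : c = 2 * w * (1 - 4 * lam) := by rw [hlam]; field_simp; ring
  obtain ⟨P, hP⟩ := exists_nat_ge (4 / lam + 7 / (4 * lam * w) + 2)
  have hP1 : 4 / lam ≤ (P : ℝ) - 2 := by
    have : 0 < 7 / (4 * lam * w) := by positivity
    linarith
  have hP2 : 7 / (4 * lam * w) ≤ (P : ℝ) - 2 := by
    have : 0 < 4 / lam := by positivity
    linarith
  have hP0 : 2 ≤ (P : ℝ) := by
    have : 0 < 4 / lam := by positivity
    linarith
  have hsθ : 0 < Real.sqrt θ := Real.sqrt_pos.mpr hθ0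
  have hsθ1 : Real.sqrt θ ≤ 1 := by
    rw [Real.sqrt_le_left (by norm_num)]; linarith
  obtain ⟨C1, hC1⟩ : ∃ C1 : ℝ, C1 = (4 / lam + 1) / Real.sqrt θ := ⟨_, rfl⟩
  have hC11 : 1 ≤ C1 := by
    rw [hC1, le_div_iff₀ hsθ]
    have : 0 < 4 / lam := by positivity
    linarith
  have hL0 : 0 ≤ Real.log (C1 * Real.exp 1) := by
    apply Real.log_nonneg
    have := Real.add_one_le_exp (1 : ℝ)
    nlinarith
  refine ⟨34 + 4 * P + 8 * Real.log (C1 * Real.exp 1), by positivity, fun J hJ => ?_⟩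
  have hJ1 : (1 : ℝ) ≤ J := by exact_mod_cast hJ
  -- parameters
  obtain ⟨S, hS⟩ : ∃ S : ℝ, S = Real.sqrt (2 * ((J : ℝ) + 1)) := ⟨_, rfl⟩
  have hS2 : S ^ 2 = 2 * ((J : ℝ) + 1) := by rw [hS]; exact Real.sq_sqrt (by positivity)
  have hS0 : 0 < S := by rw [hS]; exact Real.sqrt_pos.mpr (by positivity)
  have hS1 : 1 ≤ S := by nlinarith
  obtain ⟨d, hd⟩ : ∃ d : ℝ, d = lam / S := ⟨_, rfl⟩
  have hd0 : 0 < d := by rw [hd]; positivity
  have hdl : d ≤ lam := by rw [hd]; exact div_le_self hlam0.le hS1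
  have hdS : d * S = lam := by rw [hd]; field_simp
  let α : ℕ → ℝ := fun j => Real.sqrt (2 * (θ + j))
  have hα0 : ∀ j : ℕ, 0 < α j := fun j => Real.sqrt_pos.mpr (by positivity)
  have hα2 : ∀ j : ℕ, α j ^ 2 = 2 * (θ + j) := fun j => Real.sq_sqrt (by positivity)
  have hαS : ∀ j : ℕ, j ≤ J → α j ≤ S := by
    intro j hj
    have : (j : ℝ) ≤ J := by exact_mod_cast hj
    rw [hS]
    exact Real.sqrt_le_sqrt (by linarith)
  let K : Fin (J + 1) → ℕ := fun i => ⌈4 / (α i * d)⌉₊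
  have hK : ∀ i, 0 < K i := by
    intro i
    have := hα0 i
    exact Nat.ceil_pos.mpr (by positivity)
  have hKb : ∀ i : Fin (J + 1), (K i : ℝ) ≤ C1 * Real.sqrt ((((J + 1 : ℕ) : ℝ)) / (((i : ℕ) : ℝ) + 1)) := by
    intro i
    have hi : ((i : ℕ) : ℝ) ≤ J := by exact_mod_cast Nat.lt_succ_iff.mp i.2
    have hαi := hα0 i
    have h1 : (K i : ℝ) ≤ 4 / (α i * d) + 1 := (Nat.ceil_lt_add_one (by positivity)).le
    set Q := Real.sqrt ((((J + 1 : ℕ) : ℝ)) / (((i : ℕ) : ℝ) + 1)) with hQ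
    have hQ1 : 1 ≤ Q := by
      rw [hQ, Real.one_le_sqrt, le_div_iff₀ (by positivity)]
      push_cast
      linarith
    have h2 : S / α i ≤ Q / Real.sqrt θ := by
      rw [div_le_div_iff₀ hαi hsθ, hS, hQ]
      have e1 : Real.sqrt (2 * ((J : ℝ) + 1)) * Real.sqrt θ = Real.sqrt ((2 * ((J : ℝ) + 1)) * θ) :=
        (Real.sqrt_mul (by positivity) _).symm
      have e2 : Real.sqrt ((((J + 1 : ℕ) : ℝ)) / (((i : ℕ) : ℝ) + 1)) * α i
          = Real.sqrt (((((J + 1 : ℕ) : ℝ)) / (((i : ℕ) : ℝ) + 1)) * (2 * (θ + (i : ℕ)))) :=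
        (Real.sqrt_mul (by positivity) _).symm
      rw [e1, e2]
      apply Real.sqrt_le_sqrt
      have e3 : (((J + 1 : ℕ) : ℝ)) / (((i : ℕ) : ℝ) + 1) * (2 * (θ + (i : ℕ)))
          = (2 * ((J : ℝ) + 1)) * ((θ + (i : ℕ)) / (((i : ℕ) : ℝ) + 1)) := by
        push_cast; ring
      rw [e3]
      apply mul_le_mul_of_nonneg_left _ (by positivity)
      rw [le_div_iff₀ (by positivity)]
      have : (0 : ℝ) ≤ ((i : ℕ) : ℝ) := by positivity
      nlinarith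
    have h3 : 4 / (α i * d) = (4 / lam) * (S / α i) := by
      rw [hd]; field_simp
    have h4 : (4 / lam) * (S / α i) ≤ (4 / lam) * (Q / Real.sqrt θ) :=
      mul_le_mul_of_nonneg_left h2 (by positivity)
    have h5 : 1 ≤ Q / Real.sqrt θ := by
      rw [le_div_iff₀ hsθ]; linarith
    calc (K i : ℝ) ≤ 4 / (α i * d) + 1 := h1
      _ ≤ (4 / lam) * (Q / Real.sqrt θ) + Q / Real.sqrt θ := by rw [h3]; linarith
      _ = C1 * Q := by rw [hC1]; field_simp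
  have hprod := prod_bound (J + 1) C1 (by linarith) K hKb
  let q0 : ℕ := P * (J + 3) ^ 2
  have hPn : 2 ≤ P := by exact_mod_cast hP0
  have hq0 : (q0 : ℝ) = P * ((J : ℝ) + 3) ^ 2 := by simp [q0]
  obtain ⟨k, hk0, hkle, hkM⟩ := dirichlet (fun i : Fin (J + 1) => α i * q0) K hK
  have hk1 : (1 : ℝ) ≤ k := by exact_mod_cast hk0
  obtain ⟨s, hs⟩ : ∃ s : ℝ, s = q0 * k - d := ⟨_, rfl⟩
  have hsq0 : (q0 : ℝ) - 1 ≤ s := by
    have : (q0 : ℝ) * 1 ≤ q0 * k := mul_le_mul_of_nonneg_left hk1 (by positivity)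
    rw [hs]; linarith
  have hJ32 : (16 : ℝ) ≤ ((J : ℝ) + 3) ^ 2 := by
    have h16 := pow_le_pow_left₀ (by norm_num) (show (4 : ℝ) ≤ (J : ℝ) + 3 by linarith) 2
    norm_num at h16
    exact h16
  have hq1 : ((P : ℝ) - 1) * ((J : ℝ) + 3) ^ 2 ≤ (q0 : ℝ) - 1 := by
    rw [hq0]; linarith
  have hs4 : 4 / lam * ((J : ℝ) + 3) ^ 2 ≤ s := by
    have : 4 / lam * ((J : ℝ) + 3) ^ 2 ≤ ((P : ℝ) - 1) * ((J : ℝ) + 3) ^ 2 :=
      mul_le_mul_of_nonneg_right (by linarith) (by positivity)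
    linarith
  have hs7 : 7 / (4 * lam * w) ≤ s := by
    have : ((P : ℝ) - 1) * 1 ≤ ((P : ℝ) - 1) * ((J : ℝ) + 3) ^ 2 :=
      mul_le_mul_of_nonneg_left (by linarith) (by linarith)
    linarith
  have hsJ : ((J : ℝ) + 3) ^ 2 ≤ s := by
    have : 1 * ((J : ℝ) + 3) ^ 2 ≤ ((P : ℝ) - 1) * ((J : ℝ) + 3) ^ 2 :=
      mul_le_mul_of_nonneg_right (by linarith) (by positivity)
    linarith
  have hs0 : 0 < s := by linarith
  have hs1 : 1 ≤ s := by linarith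
  have hsle : s ≤ q0 * k := by rw [hs]; linarith
  refine ⟨⌊s ^ 2⌋₊, ?_, ?_, ?_⟩
  · -- J ≤ A
    apply Nat.le_floor
    have h17 : s * 1 ≤ s * s := mul_le_mul_of_nonneg_left hs1 hs0.le
    have h18 : ((J : ℝ) + 3) * 1 ≤ ((J : ℝ) + 3) * ((J : ℝ) + 3) :=
      mul_le_mul_of_nonneg_left (by linarith) (by linarith)
    have h19 : s ^ 2 = s * s := sq s
    have h20 : ((J : ℝ) + 3) ^ 2 = ((J : ℝ) + 3) * ((J : ℝ) + 3) := sq _
    linarith
  · -- logarithmic size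
    have hA : ((⌊s ^ 2⌋₊ : ℕ) : ℝ) ≤ s ^ 2 := Nat.floor_le (by positivity)
    have hq : 1 ≤ (q0 : ℝ) * k := by linarith
    have h1 : ((⌊s ^ 2⌋₊ : ℕ) : ℝ) + θ ≤ 2 * ((q0 : ℝ) * k) ^ 2 := by
      have : s ^ 2 ≤ ((q0 : ℝ) * k) ^ 2 := pow_le_pow_left₀ hs0.le hsle 2
      have h1' : 1 ≤ ((q0 : ℝ) * k) ^ 2 := one_le_pow₀ hq
      linarith
    have hApos : 0 < ((⌊s ^ 2⌋₊ : ℕ) : ℝ) + θ := by positivity
    have h2 : Real.log ((((⌊s ^ 2⌋₊ : ℕ) : ℝ) + θ) ^ 2) ≤ 2 * Real.log (2 * ((q0 : ℝ) * k) ^ 2) := by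
      rw [Real.log_pow]
      have := Real.log_le_log hApos h1
      push_cast
      linarith
    have hq0pos : 0 < (q0 : ℝ) := by rw [hq0]; positivity
    have hkpos : 0 < (k : ℝ) := by linarith
    have h3 : Real.log (2 * ((q0 : ℝ) * k) ^ 2) = Real.log 2 + 2 * (Real.log q0 + Real.log k) := by
      rw [Real.log_mul (by norm_num) (by positivity), Real.log_pow, Real.log_mul hq0pos.ne' hkpos.ne']
      push_cast; ring
    have h4 : Real.log 2 ≤ 1 := by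
      have := Real.log_le_sub_one_of_pos (show (0 : ℝ) < 2 by norm_num)
      linarith
    have h5 : Real.log q0 ≤ P + 2 * (J + 3) := by
      rw [hq0, Real.log_mul (by positivity) (by positivity), Real.log_pow]
      have ha := Real.log_le_sub_one_of_pos (show (0 : ℝ) < P by linarith)
      have hb := Real.log_le_sub_one_of_pos (show (0 : ℝ) < (J : ℝ) + 3 by linarith)
      push_cast
      linarith
    have h6 : Real.log k ≤ (J + 1) * Real.log (C1 * Real.exp 1) := by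
      have h7 : (k : ℝ) ≤ (C1 * Real.exp 1) ^ (J + 1) := by
        refine le_trans ?_ hprod
        exact_mod_cast hkle
      have h8 := Real.log_le_log hkpos h7
      rw [Real.log_pow] at h8
      push_cast at h8
      exact h8
    have h9 : ((J : ℝ) + 1) * Real.log (C1 * Real.exp 1) ≤ 2 * J * Real.log (C1 * Real.exp 1) :=
      mul_le_mul_of_nonneg_right (by linarith) hL0
    have h10 : (P : ℝ) ≤ P * J := le_mul_of_one_le_right (by linarith) hJ1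
    rw [h3] at h2
    have h11 : (34 + 4 * (P : ℝ) + 8 * Real.log (C1 * Real.exp 1)) * J
        = 34 * J + 4 * (P * J) + 4 * (2 * J * Real.log (C1 * Real.exp 1)) := by ring
    rw [h11]
    linarith
  · intro j hj b hb
    have hjr : (j : ℝ) ≤ J := by exact_mod_cast hj
    obtain ⟨M, hM⟩ := hkM ⟨j, Nat.lt_succ_iff.mpr hj⟩
    have hαj := hα0 j
    have hA : ((⌊s ^ 2⌋₊ : ℕ) : ℝ) ≤ s ^ 2 := Nat.floor_le (by positivity)
    have hA2 : s ^ 2 < ((⌊s ^ 2⌋₊ : ℕ) : ℝ) + 1 := Nat.lt_floor_add_one _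
    have hAJ : (J : ℝ) ≤ ((⌊s ^ 2⌋₊ : ℕ) : ℝ) := by
      have h17 : s * 1 ≤ s * s := mul_le_mul_of_nonneg_left hs1 hs0.le
      have h18 : ((J : ℝ) + 3) * 1 ≤ ((J : ℝ) + 3) * ((J : ℝ) + 3) :=
        mul_le_mul_of_nonneg_left (by linarith) (by linarith)
      have h19 : s ^ 2 = s * s := sq s
      have h20 : ((J : ℝ) + 3) ^ 2 = ((J : ℝ) + 3) * ((J : ℝ) + 3) := sq _
      linarith
    have hwα : w ≤ α j := by
      rw [hw]
      exact Real.sqrt_le_sqrt (by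
        have : (0 : ℝ) ≤ j := by positivity
        linarith)
    have had : α j * d ≤ lam := by
      calc α j * d ≤ S * d := mul_le_mul_of_nonneg_right (hαS j hj) hd0.le
        _ = lam := by rw [mul_comm]; exact hdS
    have hsd : 2 * ((J : ℝ) + 3) ≤ s * d := by
      have h1 : 4 / lam * ((J : ℝ) + 3) ^ 2 * d ≤ s * d := mul_le_mul_of_nonneg_right hs4 hd0.le
      have h2 : 4 / lam * ((J : ℝ) + 3) ^ 2 * d = 4 * ((J : ℝ) + 3) ^ 2 / S := by
        rw [hd]; field_simp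
      have h3 : 2 * ((J : ℝ) + 3) ≤ 4 * ((J : ℝ) + 3) ^ 2 / S := by
        rw [le_div_iff₀ hS0]
        have h21 : S * 1 ≤ S * S := mul_le_mul_of_nonneg_left hS1 hS0.le
        have h22 : S ^ 2 = S * S := sq S
        have h23 : S ≤ 2 * ((J : ℝ) + 3) := by linarith
        have h24 : 2 * ((J : ℝ) + 3) * S ≤ 2 * ((J : ℝ) + 3) * (2 * ((J : ℝ) + 3)) :=
          mul_le_mul_of_nonneg_left h23 (by linarith)
        linarith
      linarith
    have hs2 : 7 ≤ 4 * lam * w * s := by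
      have := hs7
      rw [div_le_iff₀ (by positivity)] at this
      linarith
    have hMs : |α j * (s + d) - (M : ℝ)| ≤ α j * d / 4 := by
      have e1 : α j * (s + d) = α j * q0 * k := by rw [hs]; ring
      rw [e1]
      refine le_trans hM ?_
      have hKj : 4 / (α j * d) ≤ ((K ⟨j, Nat.lt_succ_iff.mpr hj⟩ : ℕ) : ℝ) := Nat.le_ceil _
      have hpos : 0 < 4 / (α j * d) := by positivity
      calc 1 / ((K ⟨j, Nat.lt_succ_iff.mpr hj⟩ : ℕ) : ℝ) ≤ 1 / (4 / (α j * d)) :=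
            one_div_le_one_div_of_le hpos hKj
        _ = α j * d / 4 := by rw [one_div_div]
    exact column rfl hθ0 hθ1 (by positivity) hjr (hα2 j) hαj hwα hw0 hw1 hlam0 hlam1 hcl hc0 hd0 had
      hsd hs2 hs0 hA hA2 hAJ hMs hb

/-- One coordinate. -/
lemma oneCoord {θ c A : ℝ} {J : ℕ} {n : ℕ} (hA : A = n) (hθ0 : 0 < θ) (hθ1 : θ < 1)
    (h : ∀ j : ℕ, j ≤ J → ∀ b : ℤ, (b : ℝ) ^ 2 ≤ (θ + j) * (2 * A + θ - j) →
        c * Real.sqrt (A + θ) < (θ + j) * (2 * A + θ - j) - (b : ℝ) ^ 2)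
    (a b : ℤ) (h1 : (A + θ) ^ 2 - c * Real.sqrt (A + θ) ≤ (a : ℝ) ^ 2 + (b : ℝ) ^ 2)
    (h2 : (a : ℝ) ^ 2 + (b : ℝ) ^ 2 ≤ (A + θ) ^ 2) : |(a : ℝ)| ≤ A + θ - J := by
  by_contra hcon
  push Not at hcon
  have hA0 : 0 ≤ A := by rw [hA]; positivity
  have ha : |(a : ℝ)| ≤ A + θ := by
    apply abs_le_of_sq_le_sq _ (by linarith)
    nlinarith [sq_nonneg (b : ℝ)]
  have han : |a| ≤ (n : ℤ) := by
    have : ((|a| : ℤ) : ℝ) < ((n : ℤ) : ℝ) + 1 := by
      push_cast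
      rw [← hA]; linarith
    have : |a| < (n : ℤ) + 1 := by exact_mod_cast this
    omega
  obtain ⟨j, hj⟩ : ∃ j : ℕ, (j : ℤ) = n - |a| := ⟨((n : ℤ) - |a|).toNat, Int.toNat_of_nonneg (by omega)⟩
  have hjr : (j : ℝ) = A - |(a : ℝ)| := by
    have : ((j : ℤ) : ℝ) = (((n : ℤ) - |a| : ℤ) : ℝ) := by rw [hj]
    push_cast at this
    rw [hA]; exact this
  have hjJ : j ≤ J := by
    have : (j : ℝ) ≤ J := by rw [hjr]; linarith
    exact_mod_cast this
  have e : (θ + j) * (2 * A + θ - j) = (A + θ) ^ 2 - (a : ℝ) ^ 2 := by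
    rw [hjr, ← sq_abs (a : ℝ)]; ring
  have := h j hjJ b (by rw [e]; linarith)
  rw [e] at this
  linarith

/-- **Main theorem.** Fix the fractional part `θ` of `√X` and any constant `c` below the constant
`2√(2θ)` of the greedy argument.  There are arbitrarily large real `X` with `{√X} = θ` such that
every representation `a² + b²` in `[X - c X^(1/4), X]` has both `|a|` and `|b|` at least
`δ log X` below `√X`. -/
theorem result (θ : ℝ) (hθ0 : 0 < θ) (hθ1 : θ < 1) (c : ℝ) (hc : c < 2 * Real.sqrt (2 * θ)) :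
    ∃ δ : ℝ, 0 < δ ∧ ∀ X₀ : ℝ, ∃ X : ℝ, X₀ ≤ X ∧ 1 < X ∧ Int.fract (Real.sqrt X) = θ ∧
      ∀ a b : ℤ, X - c * X ^ (1 / 4 : ℝ) ≤ (a : ℝ) ^ 2 + (b : ℝ) ^ 2 →
        (a : ℝ) ^ 2 + (b : ℝ) ^ 2 ≤ X →
        |(a : ℝ)| ≤ Real.sqrt X - δ * Real.log X ∧ |(b : ℝ)| ≤ Real.sqrt X - δ * Real.log X := by
  -- replace c by a positive constant
  wlog hc0 : 0 < c generalizing c with H
  · have hpos : 0 < Real.sqrt (2 * θ) := Real.sqrt_pos.mpr (by linarith)
    obtain ⟨δ, hδ, h⟩ := H (Real.sqrt (2 * θ)) (by linarith) hpos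
    refine ⟨δ, hδ, fun X₀ => ?_⟩
    obtain ⟨X, hX0, hX1, hX2, hX3⟩ := h X₀
    refine ⟨X, hX0, hX1, hX2, fun a b h1 h2 => hX3 a b ?_ h2⟩
    have h3 : 0 ≤ X ^ (1 / 4 : ℝ) := Real.rpow_nonneg (by linarith) _
    have h4 : c ≤ Real.sqrt (2 * θ) := (not_lt.mp hc0).trans hpos.le
    have h5 : c * X ^ (1 / 4 : ℝ) ≤ Real.sqrt (2 * θ) * X ^ (1 / 4 : ℝ) :=
      mul_le_mul_of_nonneg_right h4 h3
    linarith
  obtain ⟨C, hC0, hcore⟩ := core hθ0 hθ1 hc0 hc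
  refine ⟨1 / C, by positivity, fun X₀ => ?_⟩
  obtain ⟨J, hJ⟩ := exists_nat_ge (max X₀ 1)
  have hJX : X₀ ≤ J := (le_max_left _ _).trans hJ
  have hJ1 : (1 : ℝ) ≤ J := (le_max_right _ _).trans hJ
  obtain ⟨A, hJA, hlog, hA⟩ := hcore J (by exact_mod_cast hJ1)
  have hAr : (J : ℝ) ≤ A := by exact_mod_cast hJA
  have hs : Real.sqrt (((A : ℝ) + θ) ^ 2) = A + θ := Real.sqrt_sq (by linarith)
  have h4 : (((A : ℝ) + θ) ^ 2) ^ (1 / 4 : ℝ) = Real.sqrt (A + θ) := by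
    rw [Real.sqrt_eq_rpow, ← Real.rpow_natCast, ← Real.rpow_mul (by linarith)]
    norm_num
  have hlogC : 1 / C * Real.log (((A : ℝ) + θ) ^ 2) ≤ J := by
    rw [one_div, inv_mul_le_iff₀ hC0]
    exact hlog
  refine ⟨((A : ℝ) + θ) ^ 2, ?_, ?_, ?_, ?_⟩
  · nlinarith
  · nlinarith
  · rw [hs]
    have : ((A : ℝ) + θ) = ((A : ℤ) : ℝ) + θ := by push_cast; ring
    rw [this, Int.fract_intCast_add, Int.fract_eq_self.mpr ⟨hθ0.le, hθ1⟩]
  · intro a b h1 h2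
    rw [h4] at h1
    rw [hs]
    have ha := oneCoord (J := J) rfl hθ0 hθ1 hA a b h1 h2
    have hb := oneCoord (J := J) rfl hθ0 hθ1 hA b a (by linarith) (by linarith)
    constructor <;> linarith

end Pool.Agent.Results.MP_5f3550_nt.TopSquares
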